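import Pool.Agent.H12R2.Sep.Fail2P
import Pool.Agent.H12R2.Sep.WinHalf

/-!
Project MU, task LAND, probabilistic half (helper982): the bad event near the boundary of the box
has small probability and depends only on the edges outside the half box.
-/

set_option autoImplicit false

namespace Pool.Agent.H982R5.Land

open H974 Finset H12S

/-- centres on the sides of the box `[-R,R]²` (`dn`: top side, `up`: bottom side, `lf`: right side,
`rt`: left side) -/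
def ctr (R : ℤ) (d : Dir) (t : ℤ) : ℤ × ℤ :=
  match d with
  | Dir.dn => (t, R)
  | Dir.up => (t, -R)
  | Dir.lf => (R, t)
  | Dir.rt => (-R, t)

/-- bad event near the boundary of the box `[-R, R]²` -/
def Bd (R r ρ l : ℕ) (F : Set Edg) : Prop :=
  (∃ a b : ℤ, (a = R ∨ a = -R) ∧ (b = R ∨ b = -R) ∧ Crs a b (4 * ρ) (R / 4) F) ∨
  (∃ (d : Dir) (i : ℤ), |(l : ℤ) * i| + ρ ≤ R ∧
    H4 d (ctr R d (l * i)).1 (ctr R d (l * i)).2 (8 * l) ρ F) ∨
  (∃ (d : Dir) (i : ℤ), |(r : ℤ) * i| + (l / 4 : ℕ) ≤ R ∧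
    H4 d (ctr R d (r * i)).1 (ctr R d (r * i)).2 (8 * r) (l / 4) F)

theorem RE_sub {a b c d a' b' c' d' : ℤ} (h1 : a' ≤ a) (h2 : b ≤ b') (h3 : c' ≤ c) (h4 : d ≤ d') :
    RE a b c d ⊆ RE a' b' c' d' := by
  rintro ⟨x, y, _ | _⟩ h
  · simp only [mem_RE_false] at h ⊢; omega
  · simp only [mem_RE_true] at h ⊢; omega

theorem hbE_sub {R ρ : ℕ} {d : Dir} {t : ℤ} (h : |t| + ρ ≤ R) :
    hbE d (ctr R d t).1 (ctr R d t).2 ρ ⊆ boxE R := by
  have h1 := abs_le.1 (show |t| ≤ (R : ℤ) - ρ by omega)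
  have h2 : (0:ℤ) ≤ |t| := abs_nonneg t
  unfold boxE
  cases d <;> exact RE_sub (by simp only [ctr]; omega) (by simp only [ctr]; omega)
    (by simp only [ctr]; omega) (by simp only [ctr]; omega)

theorem Bd_prob (k0 : ℕ) (δ : ℝ) (hδ : 0 < δ) : ∃ M3 M4 N : ℕ, 64 ≤ M3 ∧ 64 * M3 ≤ M4 ∧
    256 * M4 ≤ N ∧ k0 ≤ N ∧ ∀ r : ℕ, 1 ≤ r → Pr (fun _ => (1 / 2 : ℝ)) (boxE (N * r))
      (fun F => Bd (N * r) r (N * r / M3) (N * r / M4) (↑F : Set Edg)) ≤ δ := by
  obtain ⟨κ, hκ, hW⟩ := win_half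
  obtain ⟨C1, c1, hC1, hc1, harm⟩ := win_arm_of
    (by intro q κ n h m hm hmn c1 c2 S; exact win_blk h hm hmn c1 c2 S) κ hκ
  obtain ⟨C2, c2, hC2, hc2, hH4⟩ := H4_bound κ hκ
  have hδ3 : 0 < δ / 3 := by positivity
  obtain ⟨M3, hM3, hM3'⟩ := EP2.choose_M (1 / 8) 0 C1 32 (by positivity) le_rfl
    hC1.le (by norm_num) hc1 hδ3 64
  obtain ⟨M4, hM4, hM4'⟩ := EP2.choose_M 16 4 C2 (16 * M3) (by positivity) (by positivity) hC2.le
    (by positivity) hc2 hδ3 (64 * M3)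
  obtain ⟨N, hN, hN'⟩ := EP2.choose_M 8 4 C2 (128 * M4) (by positivity) (by positivity) hC2.le
    (by positivity) hc2 hδ3 (256 * M4 + k0)
  refine ⟨M3, M4, N, hM3, hM4, by omega, by omega, ?_⟩
  intro r hr
  have h0 : (0:ℝ) ≤ 1 / 2 := by norm_num
  have h1 : (1 / 2 : ℝ) ≤ 1 := by norm_num
  have ok := okq h0 h1
  have hM3p : 0 < M3 := by omega
  have hM4p : 0 < M4 := by omega
  have hNp : 0 < N := by omega
  obtain ⟨R, hR⟩ : ∃ R, R = N * r := ⟨_, rfl⟩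
  rw [← hR]
  obtain ⟨ρ, hρ⟩ : ∃ ρ, ρ = R / M3 := ⟨_, rfl⟩
  obtain ⟨l, hl⟩ : ∃ l, l = R / M4 := ⟨_, rfl⟩
  rw [← hρ, ← hl]
  have hlr : l * M4 ≤ R := by rw [hl]; exact Nat.div_mul_le_self R M4
  have hρr : ρ * M3 ≤ R := by rw [hρ]; exact Nat.div_mul_le_self R M3
  have hR256 : 256 * r * M4 ≤ R := by
    rw [hR]
    calc 256 * r * M4 = (256 * M4) * r := by ring
      _ ≤ N * r := Nat.mul_le_mul_right _ (by omega)
  have hl256 : 256 * r ≤ l := by
    rw [hl, Nat.le_div_iff_mul_le hM4p]; exact hR256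
  have h64l : 64 * l ≤ ρ := by
    rw [hρ, Nat.le_div_iff_mul_le hM3p]
    calc 64 * l * M3 = l * (64 * M3) := by ring
      _ ≤ l * M4 := Nat.mul_le_mul_left _ hM4
      _ ≤ R := hlr
  have h64ρ : 64 * ρ ≤ R := by
    calc 64 * ρ = ρ * 64 := by ring
      _ ≤ ρ * M3 := Nat.mul_le_mul_left _ hM3
      _ ≤ R := hρr
  have hR2l : R ≤ 2 * M4 * l := by
    have e1 := Nat.div_add_mod R M4
    have e2 := Nat.mod_lt R hM4p
    rw [← hl] at e1
    nlinarith
  have hR2ρ : R ≤ 2 * M3 * ρ := by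
    have e1 := Nat.div_add_mod R M3
    have e2 := Nat.mod_lt R hM3p
    rw [← hρ] at e1
    nlinarith
  -- the three parts
  let T2 : Finset (Dir × ℤ) := (univ : Finset Dir) ×ˢ Icc (-((2 * M4 : ℕ):ℤ)) ((2 * M4 : ℕ):ℤ)
  let T3 : Finset (Dir × ℤ) := (univ : Finset Dir) ×ˢ Icc (-(N:ℤ)) (N:ℤ)
  let A : Bool × Bool → Finset Edg → Prop := fun p F =>
    Crs (if p.1 then (R:ℤ) else -R) (if p.2 then (R:ℤ) else -R) (4 * ρ) (R / 4) (↑F : Set Edg)
  let B : Dir × ℤ → Finset Edg → Prop := fun p F => |(l : ℤ) * p.2| + ρ ≤ R ∧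
    H4 p.1 (ctr R p.1 (l * p.2)).1 (ctr R p.1 (l * p.2)).2 (8 * l) ρ (↑F : Set Edg)
  let D : Dir × ℤ → Finset Edg → Prop := fun p F => |(r : ℤ) * p.2| + (l / 4 : ℕ) ≤ R ∧
    H4 p.1 (ctr R p.1 (r * p.2)).1 (ctr R p.1 (r * p.2)).2 (8 * r) (l / 4) (↑F : Set Edg)
  have hcover : PQ (1 / 2) (boxE R) (fun F => Bd R r ρ l (↑F : Set Edg)) ≤
      PQ (1 / 2) (boxE R) (fun F => (∃ p ∈ (univ : Finset (Bool × Bool)), A p F) ∨
        ((∃ p ∈ T2, B p F) ∨ ∃ p ∈ T3, D p F)) := by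
    refine Pr_mono ok fun F _ hF => ?_
    rcases hF with ⟨a, b, ha, hb, hc⟩ | ⟨d, i, hi, hH⟩ | ⟨d, i, hi, hH⟩
    · left
      rcases ha with rfl | rfl <;> rcases hb with rfl | rfl
      · exact ⟨(true, true), mem_univ _, by simpa [A] using hc⟩
      · exact ⟨(true, false), mem_univ _, by simpa [A] using hc⟩
      · exact ⟨(false, true), mem_univ _, by simpa [A] using hc⟩
      · exact ⟨(false, false), mem_univ _, by simpa [A] using hc⟩
    · right; left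
      refine ⟨(d, i), ?_, hi, hH⟩
      have h2 : |i| ≤ ((2 * M4 : ℕ) : ℤ) := by
        apply FP2.abs_bound (l := l) (by omega)
        have h3 : (R : ℤ) ≤ ((2 * M4 : ℕ) : ℤ) * l := by exact_mod_cast hR2l
        have h4 : (0 : ℤ) ≤ ρ := by positivity
        linarith
      rw [abs_le] at h2
      simp only [T2, mem_product, mem_univ, mem_Icc, true_and]
      exact h2
    · right; right
      refine ⟨(d, i), ?_, hi, hH⟩
      have h2 : |i| ≤ (N : ℤ) := by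
        apply FP2.abs_bound (l := r) hr
        have h3 : (R : ℤ) = (N : ℤ) * r := by rw [hR]; push_cast; ring
        have h4 : (0 : ℤ) ≤ ((l / 4 : ℕ) : ℤ) := by positivity
        linarith
      rw [abs_le] at h2
      simp only [T3, mem_product, mem_univ, mem_Icc, true_and]
      exact h2
  have hfalse : ∀ P : Finset Edg → Prop, (∀ F, ¬ P F) → PQ (1 / 2) (boxE R) P ≤ 0 := by
    intro P hP
    have k1 := Pr_true (p := fun _ : Edg => (1 / 2 : ℝ)) (boxE R) (A := fun _ => True)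
      (fun _ _ => trivial)
    have k2 := Pr_not (p := fun _ : Edg => (1 / 2 : ℝ)) (boxE R) (fun _ => True)
    simp only [not_true_eq_false] at k2
    have k3 : PQ (1 / 2) (boxE R) P ≤ PQ (1 / 2) (boxE R) (fun _ => False) :=
      Pr_mono ok fun F _ hF => hP F hF
    unfold PQ at k3 ⊢
    rw [k2, k1, sub_self] at k3
    exact k3
  have hA : ∀ p ∈ (univ : Finset (Bool × Bool)), PQ (1 / 2) (boxE R) (A p) ≤
      C1 * (32 / (M3:ℝ)) ^ c1 := by
    intro p _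
    refine ((harm (1 / 2) (R / 4) (hW _) (4 * ρ) (R / 4) (by omega) (by omega) le_rfl _ _
      (boxE R)).1).trans ?_
    refine mul_le_mul_of_nonneg_left (Real.rpow_le_rpow (by positivity) ?_ hc1.le) hC1.le
    have h3 : 0 < R / 4 := by omega
    rw [div_le_div_iff₀ (by exact_mod_cast h3) (by exact_mod_cast hM3p)]
    have h4 : 4 * ρ * M3 ≤ 32 * (R / 4) := by
      have : 4 * ρ * M3 = 4 * (ρ * M3) := by ring
      omega
    exact_mod_cast h4
  have hB : ∀ p ∈ T2, PQ (1 / 2) (boxE R) (B p) ≤ C2 * (16 * (M3:ℝ) / M4) ^ (1 + c2) := by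
    intro p _
    by_cases hs : |(l : ℤ) * p.2| + ρ ≤ R
    · refine (Pr_mono ok (fun F _ hF => hF.2)).trans
        ((hH4 (1 / 2) ρ (hW _) (8 * l) ρ (by omega) (by omega) le_rfl p.1
          (ctr R p.1 (l * p.2)).1 (ctr R p.1 (l * p.2)).2 (boxE R) (hbE_sub hs)).trans ?_)
      refine mul_le_mul_of_nonneg_left (Real.rpow_le_rpow (by positivity) ?_ (by linarith)) hC2.le
      have h3 : 0 < ρ := by omega
      rw [div_le_div_iff₀ (by exact_mod_cast h3) (by exact_mod_cast hM4p)]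
      have h4 : 8 * l * M4 ≤ 16 * M3 * ρ := by
        calc 8 * l * M4 = 8 * (l * M4) := by ring
          _ ≤ 8 * R := by omega
          _ ≤ 8 * (2 * M3 * ρ) := by omega
          _ = 16 * M3 * ρ := by ring
      exact_mod_cast h4
    · exact (hfalse _ (fun F hF => hs hF.1)).trans (by positivity)
  have hD : ∀ p ∈ T3, PQ (1 / 2) (boxE R) (D p) ≤ C2 * (128 * (M4:ℝ) / N) ^ (1 + c2) := by
    intro p _
    by_cases hs : |(r : ℤ) * p.2| + (l / 4 : ℕ) ≤ R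
    · refine (Pr_mono ok (fun F _ hF => hF.2)).trans
        ((hH4 (1 / 2) (l / 4) (hW _) (8 * r) (l / 4) (by omega) (by omega) le_rfl p.1
          (ctr R p.1 (r * p.2)).1 (ctr R p.1 (r * p.2)).2 (boxE R) (hbE_sub hs)).trans ?_)
      refine mul_le_mul_of_nonneg_left (Real.rpow_le_rpow (by positivity) ?_ (by linarith)) hC2.le
      have h3 : 0 < l / 4 := by omega
      rw [div_le_div_iff₀ (by exact_mod_cast h3) (by exact_mod_cast hNp)]
      have h5 : l ≤ 8 * (l / 4) := by omega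
      have h4 : 8 * r * N ≤ 128 * M4 * (l / 4) := by
        calc 8 * r * N = 8 * R := by rw [hR]; ring
          _ ≤ 8 * (2 * M4 * l) := by omega
          _ = 16 * M4 * l := by ring
          _ ≤ 16 * M4 * (8 * (l / 4)) := Nat.mul_le_mul_left _ h5
          _ = 128 * M4 * (l / 4) := by ring
      exact_mod_cast h4
    · exact (hfalse _ (fun F hF => hs hF.1)).trans (by positivity)
  have hT2 : (T2.card : ℝ) = 16 * M4 + 4 := by
    have e1 : (Icc (-((2 * M4 : ℕ):ℤ)) ((2 * M4 : ℕ):ℤ)).card = 4 * M4 + 1 := by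
      rw [Int.card_Icc]; omega
    have e3 : (univ : Finset Dir).card = 4 := rfl
    have e4 : T2.card = 4 * (4 * M4 + 1) := by simp only [T2, card_product, e1, e3]
    rw [e4]; push_cast; ring
  have hT3 : (T3.card : ℝ) = 8 * N + 4 := by
    have e1 : (Icc (-(N:ℤ)) (N:ℤ)).card = 2 * N + 1 := by
      rw [Int.card_Icc]; omega
    have e3 : (univ : Finset Dir).card = 4 := rfl
    have e4 : T3.card = 4 * (2 * N + 1) := by simp only [T3, card_product, e1, e3]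
    rw [e4]; push_cast; ring
  have s1 : PQ (1 / 2) (boxE R) (fun F => ∃ p ∈ (univ : Finset (Bool × Bool)), A p F) ≤ δ / 3 := by
    refine (EP2.pr_biUnion h0 h1 (boxE R) univ A).trans ((Finset.sum_le_sum hA).trans ?_)
    have e4 : ((univ : Finset (Bool × Bool)).card : ℝ) = 4 := by
      have : (univ : Finset (Bool × Bool)).card = 4 := rfl
      rw [this]; norm_num
    rw [Finset.sum_const, nsmul_eq_mul, e4]
    refine le_trans (le_of_eq ?_) hM3'
    have hM3r : (0:ℝ) < M3 := by exact_mod_cast hM3p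
    rw [Real.rpow_add (by positivity), Real.rpow_one]
    field_simp
    ring
  have s2 : PQ (1 / 2) (boxE R) (fun F => ∃ p ∈ T2, B p F) ≤ δ / 3 := by
    refine (EP2.pr_biUnion h0 h1 (boxE R) T2 B).trans ((Finset.sum_le_sum hB).trans ?_)
    rw [Finset.sum_const, nsmul_eq_mul, hT2]
    exact hM4'
  have s3 : PQ (1 / 2) (boxE R) (fun F => ∃ p ∈ T3, D p F) ≤ δ / 3 := by
    refine (EP2.pr_biUnion h0 h1 (boxE R) T3 D).trans ((Finset.sum_le_sum hD).trans ?_)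
    rw [Finset.sum_const, nsmul_eq_mul, hT3]
    exact hN'
  have s4 := Pr_or_le ok (boxE R) (fun F => ∃ p ∈ (univ : Finset (Bool × Bool)), A p F)
    (fun F => (∃ p ∈ T2, B p F) ∨ ∃ p ∈ T3, D p F)
  have s5 := Pr_or_le ok (boxE R) (fun F => ∃ p ∈ T2, B p F) (fun F => ∃ p ∈ T3, D p F)
  unfold PQ at *
  linarith

/-- the bad event depends only on the edges outside the half box -/
theorem Bd_imp {R r ρ l : ℕ} (hR : 1 ≤ R) (h1 : 4 * ρ ≤ R) (h2 : l ≤ R) {F G : Set Edg}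
    (h : ∀ e, e ∉ boxE (R / 2) → e ∈ F → e ∈ G) (h' : ∀ e, e ∉ boxE (R / 2) → e ∈ G → e ∈ F)
    (hF : Bd R r ρ l F) : Bd R r ρ l G := by
  have hbox : ∀ e : Edg, e ∈ boxE (R / 2) → |(src e).1| ≤ (R / 2 : ℕ) ∧ |(src e).2| ≤ (R / 2 : ℕ) := by
    intro e he
    obtain ⟨⟨⟨a1, a2⟩, a3, a4⟩, -⟩ := ends_RE (show e ∈ RE _ _ _ _ from he)
    exact ⟨abs_le.2 ⟨a1, a2⟩, abs_le.2 ⟨a3, a4⟩⟩
  have hH : ∀ (d : Dir) (t : ℤ) (a b : ℕ), 4 * b ≤ R →
      H4 d (ctr R d t).1 (ctr R d t).2 a b F → H4 d (ctr R d t).1 (ctr R d t).2 a b G := by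
    intro d t a b hb hH
    refine (FP2.H4_congr ?_).1 hH
    have key : ∀ e ∈ hbE d (ctr R d t).1 (ctr R d t).2 b, e ∉ boxE (R / 2) := by
      intro e he hbx
      obtain ⟨m1, m2⟩ := FP2.mem_hbE he
      obtain ⟨n1, n2⟩ := hbox e hbx
      rw [abs_le] at m1 m2 n1 n2
      cases d <;> simp only [ctr] at m1 m2 <;> omega
    ext e
    constructor
    · rintro ⟨a, b⟩; exact ⟨h e (key e b) a, b⟩
    · rintro ⟨a, b⟩; exact ⟨h' e (key e b) a, b⟩
  rcases hF with ⟨a, b, ha, hb, hc⟩ | ⟨d, i, hi, hHF⟩ | ⟨d, i, hi, hHF⟩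
  · refine Or.inl ⟨a, b, ha, hb, WA_crs_local (fun e he heF => h e ?_ heF) hc⟩
    intro hbx
    obtain ⟨hP, -⟩ := WA_T_prim he
    obtain ⟨n1, n2⟩ := hbox e hbx
    unfold WA_P inR at hP
    rw [abs_le] at n1 n2
    rcases ha with rfl | rfl <;> rcases hb with rfl | rfl <;> omega
  · exact Or.inr (Or.inl ⟨d, i, hi, hH d _ _ _ h1 hHF⟩)
  · exact Or.inr (Or.inr ⟨d, i, hi, hH d _ _ _ (by omega) hHF⟩)

end Pool.Agent.H982R5.Land
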