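import Pool.Agent.H160R2.MU.Defs
import Pool.Agent.H982R5.LandB

/-!
Project MU, task LAND, probabilistic half (helper982): independence and reduction of `S_LAND` to the
deterministic statement.
-/

set_option autoImplicit false

namespace Pool.Agent.H982R5.Land

open H974 Finset H12S
open Pool.Agent.H160R2.ML Pool.Agent.H160R2.MU H906.Cyl

theorem nm_le {v : Vtx} {R : ℤ} : nm v ≤ R ↔ (-R ≤ v.1 ∧ v.1 ≤ R) ∧ (-R ≤ v.2 ∧ v.2 ≤ R) := by
  unfold nm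
  rw [max_le_iff, abs_le, abs_le]

theorem mem_boxE {n : ℕ} {e : Edg} : e ∈ boxE n ↔ nm (src e) ≤ n ∧ nm (tgt e) ≤ n := by
  rw [nm_le, nm_le]
  unfold boxE
  obtain ⟨x, y, _ | _⟩ := e
  · simp only [mem_RE_false, src_mk, tgt_false]; omega
  · simp only [mem_RE_true, src_mk, tgt_true]; omega

theorem nm_step (e : Edg) : nm (tgt e) ≤ nm (src e) + 1 ∧ nm (src e) ≤ nm (tgt e) + 1 := by
  rw [nm_le, nm_le]
  have h1 := (nm_le (v := src e)).1 le_rfl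
  have h2 := (nm_le (v := tgt e)).1 le_rfl
  obtain ⟨x, y, _ | _⟩ := e
  · simp only [src_mk, tgt_false] at h1 h2 ⊢; omega
  · simp only [src_mk, tgt_true] at h1 h2 ⊢; omega

theorem CL_mono {k : ℕ} {R R' : ℤ} (h : R' ≤ R) {G : Set Edg} {x y : Vtx × Bool}
    (hx : CL k R' G x y) : CL k R G x y := by
  cases hx with
  | edge e he h1 h2 => exact CL.edge e he (h1.trans h) (h2.trans h)
  | idn v h1 h2 => exact CL.idn v (h1.trans h) h2

theorem CL_set {k : ℕ} {R : ℤ} {G G' : Set Edg} (h : ∀ e ∈ G, nm (src e) ≤ R → nm (tgt e) ≤ R →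
    e ∈ G') {x y : Vtx × Bool} (hx : CL k R G x y) : CL k R G' x y := by
  cases hx with
  | edge e he h1 h2 => exact CL.edge e (h e he h1 h2) h1 h2
  | idn v h1 h2 => exact CL.idn v h1 h2

theorem CL_nm {k : ℕ} {R : ℤ} {G : Set Edg} {x y : Vtx × Bool} (hx : CL k R G x y) :
    nm x.1 ≤ R ∧ nm y.1 ≤ R ∧ nm y.1 ≤ nm x.1 + 1 ∧ nm x.1 ≤ nm y.1 + 1 := by
  cases hx with
  | edge e he h1 h2 => exact ⟨h1, h2, (nm_step e).1, (nm_step e).2⟩
  | idn v h1 h2 => exact ⟨h1, h1, by simp, by simp⟩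

theorem CL_small {k : ℕ} {R R' : ℤ} {G : Set Edg} {x y : Vtx × Bool} (hx : CL k R G x y)
    (h1 : nm x.1 ≤ R') (h2 : nm y.1 ≤ R') : CL k R' G x y := by
  cases hx with
  | edge e he _ _ => exact CL.edge e he h1 h2
  | idn v _ h3 => exact CL.idn v h1 h3

theorem Cb_mono {k : ℕ} {R R' : ℤ} (h : R' ≤ R) {G : Set Edg} {x y : Vtx × Bool}
    (hx : Cb k R' G x y) : Cb k R G x y := by
  unfold Cb at *
  induction hx with
  | rel a b hab => exact Relation.EqvGen.rel _ _ (CL_mono h hab)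
  | refl a => exact Relation.EqvGen.refl _
  | symm a b _ ih => exact ih.symm
  | trans a b c _ _ ih1 ih2 => exact ih1.trans _ _ _ ih2

theorem Cb_set {k : ℕ} {R : ℤ} {G G' : Set Edg} (h : ∀ e ∈ G, nm (src e) ≤ R → nm (tgt e) ≤ R →
    e ∈ G') {x y : Vtx × Bool} (hx : Cb k R G x y) : Cb k R G' x y := by
  unfold Cb at *
  induction hx with
  | rel a b hab => exact Relation.EqvGen.rel _ _ (CL_set h hab)
  | refl a => exact Relation.EqvGen.refl _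
  | symm a b _ ih => exact ih.symm
  | trans a b c _ _ ih1 ih2 => exact ih1.trans _ _ _ ih2

theorem Cb_nm {k : ℕ} {R : ℤ} {G : Set Edg} {x y : Vtx × Bool} (h : Cb k R G x y) :
    x = y ∨ (nm x.1 ≤ R ∧ nm y.1 ≤ R) := by
  unfold Cb at h
  induction h with
  | rel a b hab => exact Or.inr ⟨(CL_nm hab).1, (CL_nm hab).2.1⟩
  | refl a => exact Or.inl rfl
  | symm a b _ ih =>
    rcases ih with rfl | ⟨h1, h2⟩
    · exact Or.inl rfl
    · exact Or.inr ⟨h2, h1⟩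
  | trans a b c _ _ ih1 ih2 =>
    rcases ih1 with rfl | ⟨h1, h2⟩
    · exact ih2
    · rcases ih2 with rfl | ⟨h3, h4⟩
      · exact Or.inr ⟨h1, h2⟩
      · exact Or.inr ⟨h1, h4⟩

theorem Cb_exit {k : ℕ} {R R' : ℤ} {G : Set Edg} {x y : Vtx × Bool}
    (h : Cb k R G x y) (hx : nm x.1 ≤ R') (hy : R' ≤ nm y.1) :
    ∃ z, Cb k R' G x z ∧ nm z.1 = R' := by
  by_contra hcon
  push Not at hcon
  have hlt : ∀ z, Cb k R' G x z → nm z.1 < R' := by
    intro z hz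
    have h1 := hcon z hz
    rcases Cb_nm hz with rfl | ⟨_, h2⟩
    · exact lt_of_le_of_ne hx h1
    · exact lt_of_le_of_ne h2 h1
  have key : ∀ u v, Relation.EqvGen (CL k R G) u v → (Cb k R' G x u ↔ Cb k R' G x v) := by
    intro u v huv
    induction huv with
    | rel a b hab =>
      obtain ⟨-, -, n1, n2⟩ := CL_nm hab
      constructor
      · intro ha
        have := hlt a ha
        exact Relation.EqvGen.trans _ _ _ ha
          (Relation.EqvGen.rel _ _ (CL_small hab (by omega) (by omega)))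
      · intro hb
        have := hlt b hb
        exact Relation.EqvGen.trans _ _ _ hb
          (Relation.EqvGen.rel _ _ (CL_small hab (by omega) (by omega))).symm
    | refl a => exact Iff.rfl
    | symm a b _ ih => exact ih.symm
    | trans a b c _ _ ih1 ih2 => exact ih1.trans ih2
  have h1 := (key x y h).1 (Relation.EqvGen.refl _)
  have h2 := hlt y h1
  omega

theorem nm_sv {k i : ℕ} (hi : i < 2 * k) : nm (sv k i).1 ≤ k := by
  unfold sv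
  rw [nm_le]
  split_ifs with h
  · simp only; omega
  · simp only; omega

theorem SE_small {k : ℕ} {R R' : ℤ} (hk : (k : ℤ) ≤ R') (h : R' ≤ R) {G : Set Edg}
    (hS : SE k R G) : SE k R' G := by
  obtain ⟨h1, h2⟩ := hS
  refine ⟨fun i j hi hj hi2 hj2 hij hC => h1 i j hi hj hi2 hj2 hij (Cb_mono h hC), ?_⟩
  intro i hi hi2
  obtain ⟨y, β, hy, hC⟩ := h2 i hi hi2
  obtain ⟨z, hz, hzn⟩ := Cb_exit hC ((nm_sv hi).trans hk) (by rw [hy]; exact h)
  exact ⟨z.1, z.2, hzn, hz⟩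

theorem SE_set {k : ℕ} {R : ℤ} {G G' : Set Edg} (h : ∀ e, nm (src e) ≤ R → nm (tgt e) ≤ R →
    (e ∈ G ↔ e ∈ G')) (hS : SE k R G) : SE k R G' := by
  obtain ⟨h1, h2⟩ := hS
  refine ⟨fun i j hi hj hi2 hj2 hij hC => h1 i j hi hj hi2 hj2 hij
    (Cb_set (fun e he a b => (h e a b).2 he) hC), ?_⟩
  intro i hi hi2
  obtain ⟨y, β, hy, hC⟩ := h2 i hi hi2
  exact ⟨y, β, hy, Cb_set (fun e he a b => (h e a b).1 he) hC⟩

theorem land_ind {k R r ρ l : ℕ} (hk : k ≤ R / 2) (hR : 1 ≤ R) (h1 : 4 * ρ ≤ R) (h2 : l ≤ R) :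
    Pr (fun _ => (1 / 2 : ℝ)) (boxE R) (fun F => SE k R (↑F : Set Edg) ∧
      Bd R r ρ l (↑F : Set Edg)) ≤
    sP k (R / 2) * Pr (fun _ => (1 / 2 : ℝ)) (boxE R) (fun F => Bd R r ρ l (↑F : Set Edg)) := by
  have ok := okq (show (0:ℝ) ≤ 1 / 2 by norm_num) (show (1 / 2 : ℝ) ≤ 1 by norm_num)
  have hle : ((R / 2 : ℕ) : ℤ) ≤ R := by omega
  have e1 : Pr (fun _ => (1 / 2 : ℝ)) (boxE R) (fun F => SE k R (↑F : Set Edg) ∧
      Bd R r ρ l (↑F : Set Edg)) ≤ Pr (fun _ => (1 / 2 : ℝ)) (boxE R)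
      (fun F => SE k (R / 2 : ℕ) (↑F : Set Edg) ∧ Bd R r ρ l (↑F : Set Edg)) :=
    Pr_mono ok fun F _ hF => ⟨SE_small (by exact_mod_cast hk) hle hF.1, hF.2⟩
  have hsub : boxE (R / 2) ⊆ boxE R := boxE_mono (Nat.div_le_self R 2)
  have hA : ∀ F : Finset Edg, F ⊆ boxE R → (SE k (R / 2 : ℕ) (↑F : Set Edg) ↔
      SE k (R / 2 : ℕ) (↑(F ∩ boxE (R / 2)) : Set Edg)) := by
    intro F _
    have hk : ∀ e : Edg, nm (src e) ≤ ((R / 2 : ℕ) : ℤ) → nm (tgt e) ≤ ((R / 2 : ℕ) : ℤ) →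
        (e ∈ (↑F : Set Edg) ↔ e ∈ (↑(F ∩ boxE (R / 2)) : Set Edg)) := by
      intro e a b
      rw [mem_coe, mem_coe, mem_inter]
      exact ⟨fun h => ⟨h, mem_boxE.2 ⟨a, b⟩⟩, fun h => h.1⟩
    exact ⟨SE_set hk, SE_set fun e a b => (hk e a b).symm⟩
  have hB : ∀ F : Finset Edg, F ⊆ boxE R → (Bd R r ρ l (↑F : Set Edg) ↔
      Bd R r ρ l (↑(F ∩ (boxE R \ boxE (R / 2))) : Set Edg)) := by
    intro F hF
    have hk : ∀ e : Edg, e ∉ boxE (R / 2) →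
        (e ∈ (↑F : Set Edg) ↔ e ∈ (↑(F ∩ (boxE R \ boxE (R / 2))) : Set Edg)) := by
      intro e a
      rw [mem_coe, mem_coe, mem_inter, mem_sdiff]
      exact ⟨fun h => ⟨h, hF h, a⟩, fun h => h.1⟩
    exact ⟨Bd_imp hR h1 h2 (fun e a => (hk e a).1) (fun e a => (hk e a).2),
      Bd_imp hR h1 h2 (fun e a => (hk e a).2) (fun e a => (hk e a).1)⟩
  have e2 := Pr_indep (p := fun _ => (1 / 2 : ℝ)) hsub (sdiff_subset (s := boxE R)
    (t := boxE (R / 2))) disjoint_sdiff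
    (A := fun F => SE k (R / 2 : ℕ) (↑F : Set Edg)) (B := fun F => Bd R r ρ l (↑F : Set Edg)) hA hB
  have e3 : Pr (fun _ => (1 / 2 : ℝ)) (boxE R) (fun F => SE k (R / 2 : ℕ) (↑F : Set Edg)) =
      sP k (R / 2) := by
    unfold sP
    exact Pr_local hsub hA
  rw [e2, e3] at e1
  exact e1

theorem sP_nonneg (k R : ℕ) : 0 ≤ sP k R :=
  Pr_nonneg (okq (by norm_num) (by norm_num)) _ _

/-- **reduction of LAND to the deterministic statement** -/
theorem red_LAND (hdet : ∀ k, 2 ≤ k → ∀ M3 M4 N : ℕ, 64 ≤ M3 → 64 * M3 ≤ M4 → 256 * M4 ≤ N →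
    k + 4 ≤ N → ∃ Cs : Finset (Fin k → Cel), (∀ c ∈ Cs, Adm N k c) ∧ ∀ r : ℕ, 4 ≤ r →
    ∀ F : Finset Edg, F ⊆ boxE (N * r) → SE k (N * r : ℕ) (↑F : Set Edg) →
    ¬ Bd (N * r) r (N * r / M3) (N * r / M4) (↑F : Set Edg) →
    ∃ c ∈ Cs, Land N r k c (↑F : Set Edg)) : S_LAND := by
  intro k hk δ hδ
  obtain ⟨M3, M4, N, h3, h4, hN, hkN, hP⟩ := Bd_prob (k + 4) δ hδ
  obtain ⟨Cs, hCs, hL⟩ := hdet k hk M3 M4 N h3 h4 hN hkN
  refine ⟨N, hkN, Cs, hCs, 4, ?_⟩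
  intro r hr
  have h0 : (0:ℝ) ≤ 1 / 2 := by norm_num
  have h1 : (1 / 2 : ℝ) ≤ 1 := by norm_num
  have ok := okq h0 h1
  obtain ⟨R, hR⟩ : ∃ R, R = N * r := ⟨_, rfl⟩
  have hb := hP r (by omega)
  have hNr : 4 * N ≤ R := by rw [hR]; nlinarith
  have hM3 : 4 * (R / M3) ≤ R := by
    have e1 : R / M3 * M3 ≤ R := Nat.div_mul_le_self R M3
    have e2 : R / M3 * 4 ≤ R / M3 * M3 := Nat.mul_le_mul_left _ (by omega)
    omega
  have hM4 : R / M4 ≤ R := Nat.div_le_self R M4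
  rw [← hR] at hb ⊢
  have hi := land_ind (k := k) (R := R) (r := r) (ρ := R / M3) (l := R / M4) (by omega) (by omega)
    hM3 hM4
  have hi' : Pr (fun _ => (1 / 2 : ℝ)) (boxE R) (fun F => SE k R (↑F : Set Edg) ∧
      Bd R r (R / M3) (R / M4) (↑F : Set Edg)) ≤ δ * sP k (R / 2) := by
    refine hi.trans ?_
    rw [mul_comm δ]
    exact mul_le_mul_of_nonneg_left hb (sP_nonneg _ _)
  have hcov : sP k R ≤ Pr (fun _ => (1 / 2 : ℝ)) (boxE R) (fun F =>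
      (SE k R (↑F : Set Edg) ∧ Bd R r (R / M3) (R / M4) (↑F : Set Edg)) ∨
      ∃ c ∈ Cs, Land N r k c (↑F : Set Edg)) := by
    unfold sP
    refine Pr_mono ok fun F hF hS => ?_
    by_cases hbad : Bd R r (R / M3) (R / M4) (↑F : Set Edg)
    · exact Or.inl ⟨hS, hbad⟩
    · right
      rw [hR] at hF hS hbad
      exact hL r hr F hF hS hbad
  have s1 := Pr_or_le ok (boxE R) (fun F => SE k R (↑F : Set Edg) ∧
    Bd R r (R / M3) (R / M4) (↑F : Set Edg)) (fun F => ∃ c ∈ Cs, Land N r k c (↑F : Set Edg))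
  have s2 := EP2.pr_biUnion h0 h1 (boxE R) Cs (fun c F => Land N r k c (↑F : Set Edg))
  unfold PQ at s2
  linarith

end Pool.Agent.H982R5.Land
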